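import Mathlib

set_option autoImplicit false

/-!
Helper file (helper688): bounds for products `∏ (1 + 1/u)` over even `T`-smooth numbers `u`.
-/

namespace Pool.H688.Lehmer

open Finset

/-- Reciprocal sum over a finite set of `T`-smooth numbers. -/
lemma sum_inv_le (T : Finset ℕ) (hT : ∀ q ∈ T, q.Prime) (W : Finset ℕ)
    (hW : ∀ w ∈ W, w ≠ 0 ∧ ∀ q : ℕ, q.Prime → q ∣ w → q ∈ T) :
    ∑ w ∈ W, ((w : ℝ))⁻¹ ≤ ∏ q ∈ T, (1 - ((q : ℝ))⁻¹)⁻¹ := by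
  classical
  let f : ℕ →*₀ ℝ :=
    { toFun := fun n => ((n : ℝ))⁻¹
      map_zero' := by simp
      map_one' := by simp
      map_mul' := by intro a b; push_cast; rw [mul_inv] }
  have hf : ∀ {p : ℕ}, p.Prime → ‖f p‖ < 1 := by
    intro p hp
    have h2 : (1 : ℝ) < p := by exact_mod_cast hp.one_lt
    change ‖((p : ℝ))⁻¹‖ < 1
    rw [norm_inv, Real.norm_natCast]
    exact inv_lt_one_of_one_lt₀ h2
  have h := (EulerProduct.summable_and_hasSum_factoredNumbers_prod_filter_prime_geometric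
    (f := (f : ℕ →* ℝ)) hf T).2
  have h1 : (∏ p ∈ T with p.Prime, (1 - (f : ℕ →* ℝ) p)⁻¹) = ∏ q ∈ T, (1 - ((q : ℝ))⁻¹)⁻¹ := by
    rw [Finset.filter_true_of_mem hT]
    rfl
  rw [h1] at h
  have h2 : HasSum (Set.indicator (Nat.factoredNumbers T) (fun m : ℕ => ((m : ℝ))⁻¹))
      (∏ q ∈ T, (1 - ((q : ℝ))⁻¹)⁻¹) := by
    rw [← hasSum_subtype_iff_indicator]
    exact h
  have h3 := sum_le_hasSum W (fun i _ => by
    by_cases hi : i ∈ Nat.factoredNumbers T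
    · rw [Set.indicator_of_mem hi]; positivity
    · rw [Set.indicator_of_notMem hi]) h2
  refine le_trans (le_of_eq ?_) h3
  apply Finset.sum_congr rfl
  intro w hw
  rw [Set.indicator_of_mem]
  rw [Nat.mem_factoredNumbers']
  exact (hW w hw).2

/-- Even version. -/
lemma sum_inv_even_le (T : Finset ℕ) (hT : ∀ q ∈ T, q.Prime) (U : Finset ℕ)
    (hU : ∀ u ∈ U, u ≠ 0 ∧ 2 ∣ u ∧ ∀ q : ℕ, q.Prime → q ∣ u → q ∈ T) :
    ∑ u ∈ U, ((u : ℝ))⁻¹ ≤ (1/2) * ∏ q ∈ T, (1 - ((q : ℝ))⁻¹)⁻¹ := by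
  classical
  have hinj : Set.InjOn (fun u : ℕ => u / 2) (U : Set ℕ) := by
    intro a ha b hb hab
    have h1 := (hU a ha).2.1
    have h2 := (hU b hb).2.1
    simp only at hab
    omega
  have h := sum_inv_le T hT (U.image (fun u => u / 2)) (by
    intro w hw
    rw [Finset.mem_image] at hw
    obtain ⟨u, hu, rfl⟩ := hw
    obtain ⟨h0, h2, h3⟩ := hU u hu
    refine ⟨by omega, fun q hq hqu => h3 q hq (dvd_trans hqu ?_)⟩
    exact Nat.div_dvd_of_dvd h2)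
  rw [Finset.sum_image hinj] at h
  have h4 : ∑ u ∈ U, ((u : ℝ))⁻¹ = (1/2) * ∑ u ∈ U, (((u / 2 : ℕ) : ℝ))⁻¹ := by
    rw [Finset.mul_sum]
    apply Finset.sum_congr rfl
    intro u hu
    obtain ⟨h0, ⟨c, hc⟩, h3⟩ := hU u hu
    subst hc
    have : 2 * c / 2 = c := by omega
    rw [this]
    push_cast
    rw [mul_inv]
    norm_num
  rw [h4]
  linarith

lemma one_le_prod_real (s : Finset ℕ) (f : ℕ → ℝ) (h : ∀ i ∈ s, 1 ≤ f i) : 1 ≤ ∏ i ∈ s, f i := by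
  classical
  induction s using Finset.induction_on with
  | empty => simp
  | insert a s ha ih =>
    rw [Finset.prod_insert ha]
    have h1 := h a (Finset.mem_insert_self a s)
    have h2 := ih (fun i hi => h i (Finset.mem_insert_of_mem hi))
    nlinarith

/-- Main analytic bound. -/
lemma prod_bound (T : Finset ℕ) (hT : ∀ q ∈ T, q.Prime) (U L : Finset ℕ)
    (hU : ∀ u ∈ U, u ≠ 0 ∧ 2 ∣ u ∧ ∀ q : ℕ, q.Prime → q ∣ u → q ∈ T)
    (hL : ∀ u ∈ L, u ≠ 0 ∧ 2 ∣ u ∧ ∀ q : ℕ, q.Prime → q ∣ u → q ∈ T)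
    (good : ℕ → Bool) (hg : ∀ u ∈ U, u ∈ L → good u = true) :
    ∏ u ∈ U, (1 + ((u : ℝ))⁻¹) ≤
      (∏ u ∈ L with good u = true, (1 + ((u : ℝ))⁻¹)) *
        Real.exp ((1/2) * ∏ q ∈ T, (1 - ((q : ℝ))⁻¹)⁻¹ - ∑ u ∈ L, ((u : ℝ))⁻¹) := by
  classical
  have hsplit : ∏ u ∈ U, (1 + ((u : ℝ))⁻¹) =
      (∏ u ∈ U ∩ L, (1 + ((u : ℝ))⁻¹)) * ∏ u ∈ U \ L, (1 + ((u : ℝ))⁻¹) := by
    rw [← Finset.prod_inter_mul_prod_sdiff U L]
  rw [hsplit]
  have hpos : ∀ s : Finset ℕ, 0 ≤ ∏ u ∈ s, (1 + ((u : ℝ))⁻¹) := fun s =>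
    Finset.prod_nonneg (fun i _ => by positivity)
  have h1 : ∏ u ∈ U ∩ L, (1 + ((u : ℝ))⁻¹) ≤ ∏ u ∈ L with good u = true, (1 + ((u : ℝ))⁻¹) := by
    have hsub : U ∩ L ⊆ L.filter (fun u => good u = true) := by
      intro u hu
      rw [Finset.mem_inter] at hu
      rw [Finset.mem_filter]
      exact ⟨hu.2, hg u hu.1 hu.2⟩
    rw [← Finset.prod_sdiff hsub]
    have := one_le_prod_real ((L.filter (fun u => good u = true)) \ (U ∩ L))
      (fun u => 1 + ((u : ℝ))⁻¹) (fun i _ => by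
        have : (0:ℝ) ≤ ((i : ℝ))⁻¹ := by positivity
        linarith)
    nlinarith [hpos (U ∩ L)]
  have h2 : ∏ u ∈ U \ L, (1 + ((u : ℝ))⁻¹) ≤ Real.exp (∑ u ∈ U \ L, ((u : ℝ))⁻¹) := by
    rw [Real.exp_sum]
    apply Finset.prod_le_prod
    · intro i _; positivity
    · intro i _
      have := Real.add_one_le_exp (((i : ℝ))⁻¹)
      linarith
  have h3 : ∑ u ∈ U \ L, ((u : ℝ))⁻¹ ≤
      (1/2) * ∏ q ∈ T, (1 - ((q : ℝ))⁻¹)⁻¹ - ∑ u ∈ L, ((u : ℝ))⁻¹ := by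
    have h4 := sum_inv_even_le T hT ((U \ L) ∪ L) (by
      intro u hu
      rw [Finset.mem_union, Finset.mem_sdiff] at hu
      rcases hu with hu | hu
      · exact hU u hu.1
      · exact hL u hu)
    rw [Finset.sum_union (Finset.sdiff_disjoint)] at h4
    linarith
  have h5 : Real.exp (∑ u ∈ U \ L, ((u : ℝ))⁻¹) ≤
      Real.exp ((1/2) * ∏ q ∈ T, (1 - ((q : ℝ))⁻¹)⁻¹ - ∑ u ∈ L, ((u : ℝ))⁻¹) :=
    Real.exp_le_exp.mpr h3
  calc (∏ u ∈ U ∩ L, (1 + ((u : ℝ))⁻¹)) * ∏ u ∈ U \ L, (1 + ((u : ℝ))⁻¹)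
      ≤ (∏ u ∈ L with good u = true, (1 + ((u : ℝ))⁻¹)) * ∏ u ∈ U \ L, (1 + ((u : ℝ))⁻¹) :=
        mul_le_mul_of_nonneg_right h1 (hpos _)
    _ ≤ _ := mul_le_mul_of_nonneg_left (le_trans h2 h5) (hpos _)

/-! ### Fixed point arithmetic -/

/-- Scale. -/
def K : ℕ := 10 ^ 12

/-- upper bound for `K * ∏ (1+1/u)` over good `u`. -/
def X (g : ℕ → Bool) : List ℕ → ℕ
  | [] => K
  | u :: l => bif g u then (X g l) * (u + 1) / u + 1 else X g l

/-- lower bound for `K * ∑ 1/u`. -/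
def Y : List ℕ → ℕ
  | [] => 0
  | u :: l => K / u + Y l

lemma X_ge (g : ℕ → Bool) (l : List ℕ) (hn : l.Nodup) (h0 : ∀ u ∈ l, u ≠ 0) :
    (K : ℝ) * ∏ u ∈ l.toFinset with g u = true, (1 + ((u : ℝ))⁻¹) ≤ (X g l : ℝ) := by
  classical
  induction l with
  | nil => simp [X]
  | cons u l ih =>
    have hn' := (List.nodup_cons.mp hn)
    have ih' := ih hn'.2 (fun v hv => h0 v (List.mem_cons_of_mem _ hv))
    rw [List.toFinset_cons, Finset.filter_insert]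
    have hu0 : (0 : ℝ) < u := by
      have := h0 u List.mem_cons_self
      exact_mod_cast Nat.pos_of_ne_zero this
    by_cases hg : g u = true
    · rw [if_pos hg, Finset.prod_insert (by
        rw [Finset.mem_filter, List.mem_toFinset]
        exact fun h => hn'.1 h.1)]
      have hX : (X g (u :: l)) = (X g l) * (u + 1) / u + 1 := by
        simp [X, hg]
      rw [hX]
      have hfl : ((X g l : ℝ)) * (u + 1) / u ≤ (((X g l) * (u + 1) / u : ℕ) : ℝ) + 1 := by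
        have h1 : (X g l) * (u + 1) < ((X g l) * (u + 1) / u + 1) * u := by
          have hup : 0 < u := Nat.pos_of_ne_zero (h0 u List.mem_cons_self)
          have := Nat.lt_succ_iff.mpr (le_refl ((X g l) * (u + 1) / u))
          have h2 := Nat.div_add_mod ((X g l) * (u + 1)) u
          have h3 := Nat.mod_lt ((X g l) * (u + 1)) hup
          nlinarith
        rw [div_le_iff₀ hu0]
        have h4 : (((X g l) * (u + 1) : ℕ) : ℝ) < ((((X g l) * (u + 1) / u + 1) * u : ℕ) : ℝ) := by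
          exact_mod_cast h1
        push_cast at h4 ⊢
        linarith
      push_cast
      have hpos : (0:ℝ) ≤ 1 + ((u : ℝ))⁻¹ := by positivity
      calc (K : ℝ) * ((1 + ((u : ℝ))⁻¹) * ∏ u ∈ l.toFinset with g u = true, (1 + ((u : ℝ))⁻¹))
          = (1 + ((u : ℝ))⁻¹) * ((K : ℝ) * ∏ u ∈ l.toFinset with g u = true, (1 + ((u : ℝ))⁻¹)) := by
            ring
        _ ≤ (1 + ((u : ℝ))⁻¹) * (X g l : ℝ) := mul_le_mul_of_nonneg_left ih' hpos
        _ = (X g l : ℝ) * (u + 1) / u := by field_simp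
        _ ≤ _ := by
            have := hfl
            push_cast at this
            exact this
    · rw [if_neg hg]
      have hX : (X g (u :: l)) = X g l := by
        simp [X, hg]
      rw [hX]
      exact ih'

lemma Y_le (l : List ℕ) (hn : l.Nodup) (h0 : ∀ u ∈ l, u ≠ 0) :
    (Y l : ℝ) ≤ (K : ℝ) * ∑ u ∈ l.toFinset, ((u : ℝ))⁻¹ := by
  classical
  induction l with
  | nil => simp [Y]
  | cons u l ih =>
    have hn' := (List.nodup_cons.mp hn)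
    have ih' := ih hn'.2 (fun v hv => h0 v (List.mem_cons_of_mem _ hv))
    rw [List.toFinset_cons, Finset.sum_insert (by
      rw [List.mem_toFinset]; exact hn'.1)]
    have hY : Y (u :: l) = K / u + Y l := rfl
    rw [hY]
    push_cast
    have : ((K / u : ℕ) : ℝ) ≤ (K : ℝ) / u := Nat.cast_div_le
    rw [mul_add]
    have h2 : (K : ℝ) * ((u : ℝ))⁻¹ = (K : ℝ) / u := by rw [div_eq_mul_inv]
    rw [h2]
    linarith

/-- The certified numerical bound, with a general constant. -/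
theorem num_bound_gen (M : ℕ) (T : Finset ℕ) (hT : ∀ q ∈ T, q.Prime) (U : Finset ℕ) (l : List ℕ)
    (hn : l.Nodup)
    (hU : ∀ u ∈ U, u ≠ 0 ∧ 2 ∣ u ∧ ∀ q : ℕ, q.Prime → q ∣ u → q ∈ T)
    (hL : ∀ u ∈ l, u ≠ 0 ∧ 2 ∣ u ∧ ∀ q : ℕ, q.Prime → q ∣ u → q ∈ T)
    (good : ℕ → Bool) (hg : ∀ u ∈ U, u ∈ l → good u = true)
    (TK : ℕ) (hTK : (K : ℝ) * ((1/2) * ∏ q ∈ T, (1 - ((q : ℝ))⁻¹)⁻¹) ≤ TK)
    (hc : X good l < M * (K - (TK - Y l))) :
    ∏ u ∈ U, (1 + ((u : ℝ))⁻¹) < M := by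
  classical
  have hL' : ∀ u ∈ l.toFinset, u ≠ 0 ∧ 2 ∣ u ∧ ∀ q : ℕ, q.Prime → q ∣ u → q ∈ T := by
    intro u hu; exact hL u (List.mem_toFinset.mp hu)
  have hb := prod_bound T hT U l.toFinset hU hL' good (fun u hu hul => hg u hu (List.mem_toFinset.mp hul))
  have hX := X_ge good l hn (fun u hu => (hL u hu).1)
  have hY := Y_le l hn (fun u hu => (hL u hu).1)
  set t : ℝ := (1/2) * ∏ q ∈ T, (1 - ((q : ℝ))⁻¹)⁻¹ - ∑ u ∈ l.toFinset, ((u : ℝ))⁻¹ with ht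
  set P : ℝ := ∏ u ∈ l.toFinset with good u = true, (1 + ((u : ℝ))⁻¹) with hP
  have hK : (0 : ℝ) < (K : ℝ) := by unfold K; norm_num
  -- truncated difference
  set d : ℕ := TK - Y l with hd
  have hd1 : (K : ℝ) * t ≤ (d : ℝ) := by
    have h1 : (TK : ℝ) - (Y l : ℝ) ≤ (d : ℝ) := by
      rw [hd, sub_le_iff_le_add]
      have : TK ≤ (TK - Y l) + Y l := by omega
      exact_mod_cast this
    rw [ht, mul_sub]
    linarith
  have hdK : d < K := by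
    by_contra hcon
    push Not at hcon
    have : K - d = 0 := by omega
    rw [this] at hc
    omega
  have hdK' : (d : ℝ) < (K : ℝ) := by exact_mod_cast hdK
  have hc' : (X good l : ℝ) < M * ((K : ℝ) - d) := by
    have h1 : (X good l : ℝ) < ((M * (K - d) : ℕ) : ℝ) := by exact_mod_cast hc
    rw [Nat.cast_mul, Nat.cast_sub hdK.le] at h1
    exact h1
  have hPpos : 0 ≤ P := Finset.prod_nonneg (fun i _ => by positivity)
  -- exp t ≤ K / (K - d)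
  have hexp : Real.exp t ≤ (K : ℝ) / ((K : ℝ) - d) := by
    have h1 : t ≤ (d : ℝ) / K := by
      rw [le_div_iff₀ hK]; linarith
    have h2 := Real.add_one_le_exp (-t)
    have h3 : 1 - (d : ℝ) / K ≤ Real.exp (-t) := by linarith
    have h4 : 0 < 1 - (d : ℝ) / K := by
      rw [sub_pos, div_lt_one hK]; exact hdK'
    rw [Real.exp_neg] at h3
    have h5 : Real.exp t ≤ (1 - (d : ℝ) / K)⁻¹ := by
      rw [le_inv_comm₀ (Real.exp_pos t) h4]
      exact h3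
    refine le_trans h5 (le_of_eq ?_)
    have : (K : ℝ) - d ≠ 0 := by linarith
    field_simp
  have hKd : (0 : ℝ) < (K : ℝ) - d := by linarith
  calc ∏ u ∈ U, (1 + ((u : ℝ))⁻¹) ≤ P * Real.exp t := hb
    _ ≤ P * ((K : ℝ) / ((K : ℝ) - d)) := mul_le_mul_of_nonneg_left hexp hPpos
    _ = ((K : ℝ) * P) / ((K : ℝ) - d) := by ring
    _ ≤ (X good l : ℝ) / ((K : ℝ) - d) := div_le_div_of_nonneg_right hX hKd.le
    _ < M := by rw [div_lt_iff₀ hKd]; exact hc'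

/-- The certified numerical bound. -/
theorem num_bound (T : Finset ℕ) (hT : ∀ q ∈ T, q.Prime) (U : Finset ℕ) (l : List ℕ)
    (hn : l.Nodup)
    (hU : ∀ u ∈ U, u ≠ 0 ∧ 2 ∣ u ∧ ∀ q : ℕ, q.Prime → q ∣ u → q ∈ T)
    (hL : ∀ u ∈ l, u ≠ 0 ∧ 2 ∣ u ∧ ∀ q : ℕ, q.Prime → q ∣ u → q ∈ T)
    (good : ℕ → Bool) (hg : ∀ u ∈ U, u ∈ l → good u = true)
    (TK : ℕ) (hTK : (K : ℝ) * ((1/2) * ∏ q ∈ T, (1 - ((q : ℝ))⁻¹)⁻¹) ≤ TK)
    (hc : X good l < 2 * (K - (TK - Y l))) :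
    ∏ u ∈ U, (1 + ((u : ℝ))⁻¹) < 2 := by
  have := num_bound_gen 2 T hT U l hn hU hL good hg TK hTK hc
  exact_mod_cast this

end Pool.H688.Lehmer
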