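import Mathlib
import Pool.Agent.H688.LehmerBound

set_option autoImplicit false

namespace Pool.H688.Lehmer

open Finset

/-- Elementary facts on a composite `n` with `φ(n) ∣ n - 1`. -/
lemma basic (n : ℕ) (hn : 1 < n) (hc : ¬ n.Prime) (h : n.totient ∣ n - 1) :
    Squarefree n ∧ ¬ 2 ∣ n ∧ ∃ k, 2 ≤ k ∧ n - 1 = k * n.totient := by
  have hsq : Squarefree n := by
    rw [Nat.squarefree_iff_prime_squarefree]
    intro p hp hpp
    have h1 : p ∣ n.totient := by
      have : (p * p).totient ∣ n.totient := Nat.totient_dvd_of_dvd hpp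
      refine dvd_trans ?_ this
      rw [← pow_two, Nat.totient_prime_pow hp (by norm_num)]
      norm_num
    have h2 : p ∣ n - 1 := dvd_trans h1 h
    have h3 : p ∣ n := dvd_trans (Dvd.intro _ rfl) hpp
    have h4 : p ∣ 1 := by
      have := (Nat.dvd_sub h3 h2)
      have h5 : n - (n - 1) = 1 := by omega
      rwa [h5] at this
    exact hp.one_lt.ne' (Nat.dvd_one.mp h4)
  have hodd : ¬ 2 ∣ n := by
    intro h2
    have hn2 : 2 < n := by
      rcases Nat.lt_or_ge 2 n with h' | h'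
      · exact h'
      · exfalso
        have : n = 2 := by omega
        subst this
        exact hc Nat.prime_two
    have he := Nat.totient_even hn2
    have : 2 ∣ n - 1 := dvd_trans he.two_dvd h
    omega
  refine ⟨hsq, hodd, ?_⟩
  obtain ⟨k, hk⟩ := h
  refine ⟨k, ?_, by rw [hk, mul_comm]⟩
  rcases Nat.lt_or_ge k 2 with h' | h'
  · exfalso
    interval_cases k
    · omega
    · rw [mul_one] at hk
      have := (Nat.totient_eq_iff_prime (by omega : 0 < n)).mp hk.symm
      exact hc this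
  · exact h'

/-- `n = φ(n) ∏ (1 + 1/(p-1))` for squarefree `n`. -/
lemma n_eq_prod (n : ℕ) (hsq : Squarefree n) :
    (n : ℝ) = n.totient * ∏ p ∈ n.primeFactors, (1 + (((p - 1 : ℕ) : ℝ))⁻¹) := by
  have hn0 : n ≠ 0 := hsq.ne_zero
  have h1 := Nat.totient_mul_prod_primeFactors n
  have h2 := Nat.prod_primeFactors_of_squarefree hsq
  rw [h2] at h1
  have h3 : n.totient = ∏ p ∈ n.primeFactors, (p - 1) := by
    have : n.totient * n = (∏ p ∈ n.primeFactors, (p - 1)) * n := by rw [h1, mul_comm]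
    exact Nat.eq_of_mul_eq_mul_right (Nat.pos_of_ne_zero hn0) this
  rw [h3, Nat.cast_prod, ← Finset.prod_mul_distrib]
  conv_lhs => rw [← h2, Nat.cast_prod]
  apply Finset.prod_congr rfl
  intro p hp
  have hp' := (Nat.prime_of_mem_primeFactors hp).two_le
  have h4 : ((p - 1 : ℕ) : ℝ) = (p : ℝ) - 1 := by
    rw [Nat.cast_sub (by omega)]; simp
  rw [h4]
  have h5 : (p : ℝ) - 1 ≠ 0 := by
    have : (2 : ℝ) ≤ p := by exact_mod_cast hp'
    linarith
  field_simp
  ring

/-- primes dividing `n`: `p - 1 ∣ n - 1`. -/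
lemma pred_dvd {n p : ℕ} (h : n.totient ∣ n - 1) (hp : p.Prime) (hpn : p ∣ n) : p - 1 ∣ n - 1 := by
  rw [← Nat.totient_prime hp]
  exact dvd_trans (Nat.totient_dvd_of_dvd hpn) h

/-- Lehmer: if `3 ∣ n` then `k ≥ 4`. -/
lemma three_dvd (n k : ℕ) (hsq : Squarefree n) (h : n - 1 = k * n.totient) (hk : 2 ≤ k)
    (h3 : 3 ∣ n) : 4 ≤ k := by
  obtain ⟨m, rfl⟩ := h3
  have hm0 : m ≠ 0 := by rintro rfl; simp at hsq
  have hcop : Nat.Coprime 3 m := by
    rw [Nat.squarefree_mul_iff] at hsq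
    exact hsq.1
  have hmsq : Squarefree m := by
    rw [Nat.squarefree_mul_iff] at hsq
    exact hsq.2.2
  have htot : (3 * m).totient = 2 * m.totient := by
    rw [Nat.totient_mul hcop]
    rfl
  have hm1 : m.totient % 3 = 1 := by
    have h1 := Nat.totient_mul_prod_primeFactors m
    have h2 := Nat.prod_primeFactors_of_squarefree hmsq
    rw [h2] at h1
    have h3' : m.totient = ∏ p ∈ m.primeFactors, (p - 1) := by
      have : m.totient * m = (∏ p ∈ m.primeFactors, (p - 1)) * m := by rw [h1, mul_comm]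
      exact Nat.eq_of_mul_eq_mul_right (Nat.pos_of_ne_zero hm0) this
    rw [h3', Finset.prod_nat_mod]
    have : ∀ p ∈ m.primeFactors, (p - 1) % 3 = 1 := by
      intro p hp
      have hpp := Nat.prime_of_mem_primeFactors hp
      have hpm := Nat.dvd_of_mem_primeFactors hp
      have hp2 := hpp.two_le
      have hd : p - 1 ∣ 3 * m - 1 := by
        apply pred_dvd _ hpp (Dvd.dvd.mul_left hpm 3)
        rw [h]; exact Dvd.intro_left _ rfl
      have hp3 : ¬ 3 ∣ p := by
        intro h3p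
        have : 3 = p := (Nat.prime_dvd_prime_iff_eq Nat.prime_three hpp).mp h3p
        subst this
        have := Nat.Coprime.eq_one_of_dvd hcop hpm
        omega
      have hp4 : ¬ 3 ∣ p - 1 := by
        intro h3p
        have := dvd_trans h3p hd
        omega
      omega
    rw [Finset.prod_congr rfl this]
    simp
  rw [htot] at h
  have h5 : (3 * m - 1) % 3 = 2 := by omega
  rw [h] at h5
  have h6 : (k * (2 * m.totient)) % 3 = (k * 2) % 3 := by
    rw [Nat.mul_mod, Nat.mul_mod 2, hm1]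
    norm_num [Nat.mul_mod]
  rw [h6] at h5
  omega

/-- The set of `p - 1`, `p ∣ n`, `p ≠ 3`. -/
def Uset (n : ℕ) : Finset ℕ := (n.primeFactors.erase 3).image (fun p => p - 1)

lemma mem_Uset {n u : ℕ} (hu : u ∈ Uset n) : (u + 1).Prime ∧ u + 1 ∣ n ∧ u + 1 ≠ 3 := by
  unfold Uset at hu
  rw [Finset.mem_image] at hu
  obtain ⟨p, hp, rfl⟩ := hu
  rw [Finset.mem_erase] at hp
  have hpp := Nat.prime_of_mem_primeFactors hp.2
  have h1 : p - 1 + 1 = p := by have := hpp.two_le; omega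
  rw [h1]
  exact ⟨hpp, Nat.dvd_of_mem_primeFactors hp.2, hp.1⟩

/-- If the product over `Uset n` is `< 2` we get a contradiction. -/
theorem contra (n : ℕ) (hn : 1 < n) (hc : ¬ n.Prime) (h : n.totient ∣ n - 1)
    (hP : ∏ u ∈ Uset n, (1 + ((u : ℝ))⁻¹) < 2) : False := by
  obtain ⟨hsq, hodd, k, hk2, hk⟩ := basic n hn hc h
  have hinj : Set.InjOn (fun p : ℕ => p - 1) ((n.primeFactors.erase 3 : Finset ℕ) : Set ℕ) := by
    intro a ha b hb hab
    have h1 := (Nat.prime_of_mem_primeFactors (Finset.mem_erase.mp (Finset.mem_coe.mp ha)).2).two_le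
    have h2 := (Nat.prime_of_mem_primeFactors (Finset.mem_erase.mp (Finset.mem_coe.mp hb)).2).two_le
    simp only at hab
    omega
  unfold Uset at hP
  rw [Finset.prod_image hinj] at hP
  have hn' := n_eq_prod n hsq
  have htpos : (0 : ℝ) < n.totient := by
    have := Nat.totient_pos.mpr (by omega : 0 < n)
    exact_mod_cast this
  have hreal : (n : ℝ) = k * n.totient + 1 := by
    have : n = k * n.totient + 1 := by omega
    calc (n : ℝ) = ((k * n.totient + 1 : ℕ) : ℝ) := by rw [← this]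
      _ = _ := by push_cast; ring
  by_cases h3 : 3 ∣ n
  · have hk4 := three_dvd n k hsq hk hk2 h3
    have hmem : 3 ∈ n.primeFactors := by
      rw [Nat.mem_primeFactors]; exact ⟨Nat.prime_three, h3, by omega⟩
    rw [← Finset.mul_prod_erase _ _ hmem] at hn'
    have hk4' : (4 : ℝ) ≤ k := by exact_mod_cast hk4
    norm_num at hn'
    have h6 : (n : ℝ) < n.totient * 3 := by
      rw [hn']
      have : (3 / 2 : ℝ) * ∏ p ∈ n.primeFactors.erase 3, (1 + (((p - 1 : ℕ) : ℝ))⁻¹) < 3 := by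
        linarith
      calc _ = (n.totient : ℝ) * ((3 / 2 : ℝ) * ∏ p ∈ n.primeFactors.erase 3, (1 + (((p - 1 : ℕ) : ℝ))⁻¹)) := by ring_nf
        _ < _ := mul_lt_mul_of_pos_left this htpos
    nlinarith
  · have hmem : 3 ∉ n.primeFactors := by
      intro h'; exact h3 (Nat.dvd_of_mem_primeFactors h')
    rw [Finset.erase_eq_of_notMem hmem] at hP
    have hk2' : (2 : ℝ) ≤ k := by exact_mod_cast hk2
    have h6 : (n : ℝ) < n.totient * 2 := by
      calc (n : ℝ) = _ := hn'
        _ < _ := mul_lt_mul_of_pos_left hP htpos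
    nlinarith

lemma Uset_smooth (n : ℕ) (hn : 1 < n) (hc : ¬ n.Prime) (h : n.totient ∣ n - 1) :
    ∀ u ∈ Uset n, u ≠ 0 ∧ 2 ∣ u ∧ ∀ q : ℕ, q.Prime → q ∣ u → q ∈ (n - 1).primeFactors := by
  obtain ⟨hsq, hodd, k, hk2, hk⟩ := basic n hn hc h
  intro u hu
  obtain ⟨h1, h2, h3⟩ := mem_Uset hu
  have h4 : u ∣ n - 1 := by
    have := pred_dvd h h1 h2
    simpa using this
  have h5 : u + 1 ≠ 2 := by
    intro h'; rw [h'] at h2; exact hodd h2
  have h6 := h1.two_le
  refine ⟨by omega, ?_, ?_⟩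
  · rcases h1.eq_two_or_odd with h' | h'
    · exact absurd h' h5
    · omega
  · intro q hq hqu
    rw [Nat.mem_primeFactors]
    exact ⟨hq, dvd_trans hqu h4, by omega⟩

/-- primes dividing `n` do not divide `n - 1`. -/
lemma not_mem_of_mem_Uset {n u : ℕ} (hn : 1 < n) (hu : u ∈ Uset n) : u + 1 ∉ (n - 1).primeFactors := by
  intro h'
  obtain ⟨h1, h2, h3⟩ := mem_Uset hu
  have h4 := Nat.dvd_of_mem_primeFactors h'
  have h5 : u + 1 ∣ 1 := by
    have := (Nat.dvd_sub h2 h4)
    have h5 : n - (n - 1) = 1 := by omega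
    rwa [h5] at this
  exact h1.one_lt.ne' (Nat.dvd_one.mp h5)

/-! ### Checkers -/

/-- small trial divisors -/
def SM : List ℕ := [5,7,11,13,17,19,23,29,31,37,41,43,47,53,59,61,67,71,73,79,83,89,97]

/-- `u + 1` survives trial division and is not in `S`. -/
def good1 (S : List ℕ) (u : ℕ) : Bool :=
  (!((u+1) % 3 == 0)) && (!(S.any (fun q => u + 1 == q))) &&
    SM.all (fun d => (!((u+1) % d == 0)) || u + 1 == d)

/-- quadratic residue condition on `u+1`. -/
def goodD (D u : ℕ) : Bool := D ^ (u / 2) % (u + 1) == (bif (u / 2) % 2 == 0 then 1 else u)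

lemma good1_of (S : List ℕ) (n u : ℕ) (hn : 1 < n) (hu : u ∈ Uset n)
    (hS : ∀ q ∈ S, q ∈ (n - 1).primeFactors) : good1 S u = true := by
  obtain ⟨h1, h2, h3⟩ := mem_Uset hu
  unfold good1
  rw [Bool.and_eq_true, Bool.and_eq_true]
  refine ⟨⟨?_, ?_⟩, ?_⟩
  · simp only [Bool.not_eq_true', beq_eq_false_iff_ne, ne_eq]
    intro h0
    have : 3 ∣ u + 1 := Nat.dvd_of_mod_eq_zero h0
    have := (Nat.prime_dvd_prime_iff_eq Nat.prime_three h1).mp this
    omega
  · simp only [Bool.not_eq_true', List.any_eq_false, beq_iff_eq]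
    intro q hq hqu
    have := hS q hq
    rw [← hqu] at this
    exact not_mem_of_mem_Uset hn hu this
  · rw [List.all_eq_true]
    intro d hd
    simp only [Bool.or_eq_true, Bool.not_eq_true', beq_eq_false_iff_ne, ne_eq, beq_iff_eq]
    by_cases h0 : (u + 1) % d = 0
    · right
      have hdp : d.Prime := by
        unfold SM at hd
        simp only [List.mem_cons, List.not_mem_nil, or_false] at hd
        rcases hd with rfl | rfl | rfl | rfl | rfl | rfl | rfl | rfl | rfl | rfl | rfl | rfl | rfl | rfl | rfl | rfl | rfl | rfl | rfl | rfl | rfl | rfl | rfl <;> norm_num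
      exact ((Nat.prime_dvd_prime_iff_eq hdp h1).mp (Nat.dvd_of_mod_eq_zero h0)).symm
    · left; exact h0

lemma goodD_of (D m n u : ℕ) (hn : 1 < n) (hu : u ∈ Uset n) (hodd : ¬ 2 ∣ n)
    (hD : m ^ 2 * D = n - 1) : goodD D u = true := by
  obtain ⟨h1, h2, h3⟩ := mem_Uset hu
  have : Fact (u + 1).Prime := ⟨h1⟩
  have hne2 : u + 1 ≠ 2 := by
    intro h'; rw [h'] at h2; exact hodd h2
  have hge := h1.two_le
  have hev : u % 2 = 0 := by
    rcases h1.eq_two_or_odd with h' | h'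
    · exact absurd h' hne2
    · omega
  have hz : ((n - 1 : ℕ) : ZMod (u + 1)) = -1 := by
    rw [Nat.cast_sub (by omega)]
    have : ((n : ℕ) : ZMod (u + 1)) = 0 := (ZMod.natCast_eq_zero_iff _ _).mpr h2
    rw [this]; simp
  have hz2 : ((m : ZMod (u + 1))) ^ 2 * (D : ZMod (u + 1)) = -1 := by
    rw [← hz, ← hD]; push_cast; ring
  have hm0 : (m : ZMod (u + 1)) ≠ 0 := by
    intro h0
    rw [h0] at hz2
    simp at hz2
  have hfer : (m : ZMod (u + 1)) ^ u = 1 := by
    have := ZMod.pow_card_sub_one_eq_one hm0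
    simpa using this
  have hu2 : 2 * (u / 2) = u := by omega
  have hpow : (D : ZMod (u + 1)) ^ (u / 2) = (-1) ^ (u / 2) := by
    rw [← hz2, mul_pow, ← pow_mul, hu2, hfer, one_mul]
  unfold goodD
  rw [beq_iff_eq]
  by_cases hpar : (u / 2) % 2 = 0
  · have he : Even (u / 2) := Nat.even_iff.mpr hpar
    rw [he.neg_one_pow] at hpow
    have h5 : ((D ^ (u / 2) : ℕ) : ZMod (u + 1)) = ((1 : ℕ) : ZMod (u + 1)) := by
      push_cast; exact hpow
    rw [ZMod.natCast_eq_natCast_iff] at h5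
    have h6 : D ^ (u / 2) % (u + 1) = 1 % (u + 1) := h5
    rw [h6, hpar]
    simp only [beq_self_eq_true, cond_true]
    exact Nat.mod_eq_of_lt h1.one_lt
  · have hpar1 : (u / 2) % 2 = 1 := by omega
    have ho : Odd (u / 2) := Nat.odd_iff.mpr hpar1
    rw [ho.neg_one_pow] at hpow
    have h5 : ((D ^ (u / 2) : ℕ) : ZMod (u + 1)) = ((u : ℕ) : ZMod (u + 1)) := by
      push_cast
      rw [hpow]
      have : ((u + 1 : ℕ) : ZMod (u + 1)) = 0 := ZMod.natCast_self _
      push_cast at this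
      linear_combination (-1 : ZMod (u + 1)) * this
    rw [ZMod.natCast_eq_natCast_iff] at h5
    have h6 : D ^ (u / 2) % (u + 1) = u % (u + 1) := h5
    rw [h6, hpar1]
    have : ((1 : ℕ) == 0) = false := rfl
    rw [this, cond_false]
    exact Nat.mod_eq_of_lt (Nat.lt_succ_self u)

/-- smoothness test -/
def sm (S : List ℕ) (u : ℕ) : Bool := (u % 2 == 0) && (S.prod ^ 40 % u == 0)

lemma sm_spec (S : List ℕ) (hS : ∀ q ∈ S, q.Prime) (u : ℕ) (hu : sm S u = true) :
    u ≠ 0 ∧ 2 ∣ u ∧ ∀ q : ℕ, q.Prime → q ∣ u → q ∈ S.toFinset := by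
  unfold sm at hu
  rw [Bool.and_eq_true, beq_iff_eq, beq_iff_eq] at hu
  refine ⟨?_, Nat.dvd_of_mod_eq_zero hu.1, ?_⟩
  · rintro rfl
    rw [Nat.mod_zero] at hu
    have h1 : S.prod ≠ 0 := by
      intro h0
      rw [List.prod_eq_zero_iff] at h0
      exact (hS 0 h0).ne_zero rfl
    exact pow_ne_zero 40 h1 hu.2
  · intro q hq hqu
    have h1 : q ∣ S.prod ^ 40 := dvd_trans hqu (Nat.dvd_of_mod_eq_zero hu.2)
    have h2 := hq.dvd_of_dvd_pow h1
    rw [Prime.dvd_prod_iff hq.prime] at h2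
    obtain ⟨a, ha, hqa⟩ := h2
    have := (Nat.prime_dvd_prime_iff_eq hq (hS a ha)).mp hqa
    rw [this, List.mem_toFinset]
    exact ha

/-- upper bound for `K * (1/2) ∏ q/(q-1)`. -/
def TKof (S : List ℕ) : ℕ := K * S.prod / (2 * (S.map (fun q => q - 1)).prod) + 1

lemma TKof_spec (S : List ℕ) (hS : ∀ q ∈ S, q.Prime) (hn : S.Nodup) :
    (K : ℝ) * ((1/2) * ∏ q ∈ S.toFinset, (1 - ((q : ℝ))⁻¹)⁻¹) ≤ (TKof S : ℝ) := by
  have h1 : ∏ q ∈ S.toFinset, (1 - ((q : ℝ))⁻¹)⁻¹ = (S.map (fun q : ℕ => (1 - ((q : ℝ))⁻¹)⁻¹)).prod := by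
    exact List.prod_toFinset _ hn
  have h2 : ∀ S : List ℕ, (∀ q ∈ S, q.Prime) →
      (S.map (fun q : ℕ => (1 - ((q : ℝ))⁻¹)⁻¹)).prod * ((S.map (fun q => q - 1)).prod : ℕ) = (S.prod : ℕ) := by
    intro S
    induction S with
    | nil => intro _; simp
    | cons a l ih =>
      intro hS
      have ih' := ih (fun q hq => hS q (List.mem_cons_of_mem _ hq))
      have ha := (hS a List.mem_cons_self).two_le
      simp only [List.map_cons, List.prod_cons]
      rw [Nat.cast_mul, Nat.cast_mul, ← ih']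
      have h4 : ((a - 1 : ℕ) : ℝ) = (a : ℝ) - 1 := by
        rw [Nat.cast_sub (by omega)]; simp
      rw [h4]
      have h5 : (a : ℝ) - 1 ≠ 0 := by
        have : (2 : ℝ) ≤ a := by exact_mod_cast ha
        linarith
      have h6 : (a : ℝ) ≠ 0 := by
        have : (2 : ℝ) ≤ a := by exact_mod_cast ha
        linarith
      have h7 : (1 - ((a : ℝ))⁻¹)⁻¹ * ((a : ℝ) - 1) = a := by
        field_simp
      linear_combination (List.map (fun q : ℕ => (1 - ((q : ℝ))⁻¹)⁻¹) l).prod * ((l.map (fun q => q - 1)).prod : ℕ) * h7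
  have h3 := h2 S hS
  rw [h1]
  set A := (S.map (fun q : ℕ => (1 - ((q : ℝ))⁻¹)⁻¹)).prod
  set B := (S.map (fun q => q - 1)).prod with hB
  have hBpos : 0 < B := by
    rw [hB]
    apply List.prod_pos
    intro a ha
    rw [List.mem_map] at ha
    obtain ⟨q, hq, rfl⟩ := ha
    have := (hS q hq).two_le
    omega
  have hBr : (0 : ℝ) < (B : ℝ) := by exact_mod_cast hBpos
  have h8 : K * S.prod < (K * S.prod / (2 * B) + 1) * (2 * B) := by
    have h2 := Nat.div_add_mod (K * S.prod) (2 * B)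
    have h3 := Nat.mod_lt (K * S.prod) (by omega : 2 * B > 0)
    nlinarith
  have h9 : ((K * S.prod : ℕ) : ℝ) < (((K * S.prod / (2 * B) + 1) * (2 * B) : ℕ) : ℝ) := by exact_mod_cast h8
  unfold TKof
  rw [← hB]
  rw [Nat.cast_mul, Nat.cast_mul, ← h3] at h9
  have h10 : (K : ℝ) * (A * B) < ((K * S.prod / (2 * B) + 1 : ℕ) : ℝ) * (2 * B) := by
    refine lt_of_lt_of_eq h9 ?_
    push_cast; ring
  have h11 : (K : ℝ) * (1 / 2 * A) * (2 * B) ≤ ((K * S.prod / (2 * B) + 1 : ℕ) : ℝ) * (2 * B) := by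
    nlinarith
  exact le_of_mul_le_mul_right h11 (by positivity)

end Pool.H688.Lehmer
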