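import Mathlib
import Pool.Agent.H688.LehmerBasic

set_option autoImplicit false
set_option maxRecDepth 100000

namespace Pool.H688.Lehmer

open Finset

/-- `[x, x*q, x*q^2, …]` truncated at `B` (at most `f` terms). -/
def pows (q B : ℕ) : ℕ → ℕ → List ℕ
  | 0, _ => []
  | f + 1, x => bif Nat.ble x B then x :: pows q B f (x * q) else []

/-- smooth numbers up to `B` -/
def gen (B : ℕ) : List ℕ → List ℕ
  | [] => [1]
  | q :: R => (gen B R).flatMap (fun x => pows q B 20 x)

/-- even numbers up to `B` with odd part `R`-smooth -/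
def glist (R : List ℕ) (B : ℕ) : List ℕ := (gen B R).flatMap (fun x => pows 2 B 20 (2 * x))

lemma mem_pows (q B f x y : ℕ) (h : y ∈ pows q B f x) : ∃ i, y = x * q ^ i := by
  induction f generalizing x with
  | zero => exact absurd h List.not_mem_nil
  | succ f ih =>
    unfold pows at h
    cases hb : Nat.ble x B with
    | false => rw [hb, cond_false] at h; exact absurd h List.not_mem_nil
    | true =>
      rw [hb, cond_true, List.mem_cons] at h
      rcases h with rfl | h
      · exact ⟨0, by simp⟩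
      · obtain ⟨i, hi⟩ := ih (x * q) h
        exact ⟨i + 1, by rw [hi]; ring⟩

lemma pows_nodup (q B f x : ℕ) (hq : 2 ≤ q) (hx : x ≠ 0) : (pows q B f x).Nodup := by
  induction f generalizing x with
  | zero => exact List.nodup_nil
  | succ f ih =>
    unfold pows
    cases hb : Nat.ble x B with
    | false => rw [cond_false]; exact List.nodup_nil
    | true =>
      rw [cond_true, List.nodup_cons]
      refine ⟨?_, ih (x * q) (Nat.mul_ne_zero hx (by omega))⟩
      intro h
      obtain ⟨i, hi⟩ := mem_pows q B f (x * q) x h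
      have h1 : 1 ≤ q ^ i := Nat.one_le_pow _ _ (by omega)
      have h2 : 0 < x := Nat.pos_of_ne_zero hx
      have h3 : x * q * q ^ i ≥ x * 2 * 1 := Nat.mul_le_mul (Nat.mul_le_mul le_rfl hq) h1
      omega

lemma gen_spec (B : ℕ) (R : List ℕ) (hR : ∀ q ∈ R, q.Prime) :
    ∀ x ∈ gen B R, x ≠ 0 ∧ ∀ q : ℕ, q.Prime → q ∣ x → q ∈ R := by
  induction R with
  | nil =>
    intro x hx
    have : x = 1 := by simpa [gen] using hx
    subst this
    exact ⟨one_ne_zero, fun q hq hq1 => absurd (Nat.dvd_one.mp hq1) hq.one_lt.ne'⟩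
  | cons a R ih =>
    have ih' := ih (fun q hq => hR q (List.mem_cons_of_mem _ hq))
    have ha := hR a List.mem_cons_self
    intro x hx
    unfold gen at hx
    rw [List.mem_flatMap] at hx
    obtain ⟨y, hy, hxy⟩ := hx
    obtain ⟨i, rfl⟩ := mem_pows a B 20 y x hxy
    obtain ⟨h1, h2⟩ := ih' y hy
    refine ⟨Nat.mul_ne_zero h1 (pow_ne_zero _ ha.ne_zero), ?_⟩
    intro q hq hqx
    rcases (Nat.Prime.dvd_mul hq).mp hqx with h | h
    · exact List.mem_cons_of_mem _ (h2 q hq h)
    · have := (Nat.prime_dvd_prime_iff_eq hq ha).mp (hq.dvd_of_dvd_pow h)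
      rw [this]; exact List.mem_cons_self

lemma flat_nodup (q B : ℕ) (hq : q.Prime) (l : List ℕ) (hl : l.Nodup)
    (hl2 : ∀ x ∈ l, x ≠ 0 ∧ ¬ q ∣ x) :
    (l.flatMap (fun x => pows q B 20 x)).Nodup := by
  rw [List.nodup_flatMap]
  refine ⟨fun x hx => pows_nodup q B 20 x hq.two_le (hl2 x hx).1, ?_⟩
  apply List.Pairwise.imp_of_mem _ hl
  intro a b ha hb hab
  simp only [Function.onFun]
  rw [List.disjoint_left]
  intro z hza hzb
  obtain ⟨i, hi⟩ := mem_pows q B 20 a z hza
  obtain ⟨j, hj⟩ := mem_pows q B 20 b z hzb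
  rw [hi] at hj
  apply hab
  have key : ∀ a b i j : ℕ, ¬ q ∣ b → a * q ^ i = b * q ^ j → i ≤ j := by
    intro a b i j hb h
    by_contra hlt
    push Not at hlt
    obtain ⟨k, hk⟩ := Nat.exists_eq_add_of_lt hlt
    rw [hk] at h
    have h2 : a * q ^ (k + 1) * q ^ j = b * q ^ j := by
      rw [← h]; ring
    have h3 := Nat.eq_of_mul_eq_mul_right (pow_pos hq.pos j) h2
    apply hb
    rw [← h3, pow_succ]
    exact ⟨a * q ^ k, by ring⟩
  have h1 := key a b i j (hl2 b hb).2 hj
  have h2 := key b a j i (hl2 a ha).2 hj.symm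
  have h3 : i = j := le_antisymm h1 h2
  subst h3
  exact Nat.eq_of_mul_eq_mul_right (pow_pos hq.pos i) hj

lemma gen_nodup (B : ℕ) (R : List ℕ) (hR : ∀ q ∈ R, q.Prime) (hn : R.Nodup) :
    (gen B R).Nodup := by
  induction R with
  | nil => simp [gen]
  | cons a R ih =>
    have hR' : ∀ q ∈ R, q.Prime := fun q hq => hR q (List.mem_cons_of_mem _ hq)
    have hn' := List.nodup_cons.mp hn
    unfold gen
    apply flat_nodup a B (hR a List.mem_cons_self) _ (ih hR' hn'.2)
    intro x hx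
    obtain ⟨h1, h2⟩ := gen_spec B R hR' x hx
    exact ⟨h1, fun h => hn'.1 (h2 a (hR a List.mem_cons_self) h)⟩

lemma glist_nodup (R : List ℕ) (B : ℕ) (hR : ∀ q ∈ R, q.Prime) (hn : R.Nodup) (h2 : 2 ∉ R) :
    (glist R B).Nodup := by
  unfold glist
  have h := flat_nodup 2 B Nat.prime_two (gen B R) (gen_nodup B R hR hn) (by
    intro x hx
    obtain ⟨h1, h3⟩ := gen_spec B R hR x hx
    exact ⟨h1, fun h => h2 (h3 2 Nat.prime_two h)⟩)
  rw [List.nodup_flatMap] at h ⊢
  refine ⟨fun x hx => pows_nodup 2 B 20 (2 * x) le_rfl ?_, ?_⟩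
  · have := (gen_spec B R hR x hx).1
    omega
  · have hl := gen_nodup B R hR hn
    apply List.Pairwise.imp_of_mem _ hl
    intro a b ha hb hab
    simp only [Function.onFun]
    rw [List.disjoint_left]
    intro z hza hzb
    obtain ⟨i, hi⟩ := mem_pows 2 B 20 (2 * a) z hza
    obtain ⟨j, hj⟩ := mem_pows 2 B 20 (2 * b) z hzb
    rw [hi] at hj
    apply hab
    have ha2 : ¬ 2 ∣ a := fun h => h2 ((gen_spec B R hR a ha).2 2 Nat.prime_two h)
    have hb2 : ¬ 2 ∣ b := fun h => h2 ((gen_spec B R hR b hb).2 2 Nat.prime_two h)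
    have hj' : a * 2 ^ i = b * 2 ^ j := by
      have : 2 * (a * 2 ^ i) = 2 * (b * 2 ^ j) := by
        rw [← mul_assoc, ← mul_assoc]; exact hj
      omega
    have key : ∀ a b i j : ℕ, ¬ 2 ∣ b → a * 2 ^ i = b * 2 ^ j → i ≤ j := by
      intro a b i j hb h
      by_contra hlt
      push Not at hlt
      obtain ⟨k, hk⟩ := Nat.exists_eq_add_of_lt hlt
      rw [hk] at h
      have h2 : a * 2 ^ (k + 1) * 2 ^ j = b * 2 ^ j := by
        rw [← h]; ring
      have h3 := Nat.eq_of_mul_eq_mul_right (pow_pos (by norm_num) j) h2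
      apply hb
      rw [← h3, pow_succ]
      exact ⟨a * 2 ^ k, by ring⟩
    have h3 : i = j := le_antisymm (key a b i j hb2 hj') (key b a j i ha2 hj'.symm)
    subst h3
    exact Nat.eq_of_mul_eq_mul_right (pow_pos (by norm_num) i) hj'

lemma glist_spec (R : List ℕ) (B : ℕ) (hR : ∀ q ∈ R, q.Prime) :
    ∀ u ∈ glist R B, u ≠ 0 ∧ 2 ∣ u ∧ ∀ q : ℕ, q.Prime → q ∣ u → q = 2 ∨ q ∈ R := by
  intro u hu
  unfold glist at hu
  rw [List.mem_flatMap] at hu
  obtain ⟨x, hx, hux⟩ := hu
  obtain ⟨i, rfl⟩ := mem_pows 2 B 20 (2 * x) u hux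
  obtain ⟨h1, h2⟩ := gen_spec B R hR x hx
  refine ⟨?_, ?_, ?_⟩
  · have : 2 ^ i ≠ 0 := pow_ne_zero _ (by norm_num)
    exact Nat.mul_ne_zero (by omega) this
  · rw [mul_assoc]; exact Dvd.intro _ rfl
  · intro q hq hqu
    rcases (Nat.Prime.dvd_mul hq).mp hqu with h | h
    · rcases (Nat.Prime.dvd_mul hq).mp h with h | h
      · left; exact (Nat.prime_dvd_prime_iff_eq hq Nat.prime_two).mp h
      · right; exact h2 q hq h
    · left; exact (Nat.prime_dvd_prime_iff_eq hq Nat.prime_two).mp (hq.dvd_of_dvd_pow h)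

/-- plain check -/
def chkG (R E : List ℕ) (T B : ℕ) : Bool :=
  Nat.blt (X (good1 E) (glist R B)) (2 * (K - (T - Y (glist R B))))

/-- check with quadratic residue condition -/
def chkGD (R E : List ℕ) (D T B : ℕ) : Bool :=
  Nat.blt (X (fun u => good1 E u && goodD D u) (glist R B)) (2 * (K - (T - Y (glist R B))))

/-- General closing lemma: plain. -/
lemma closeG (n : ℕ) (hn : 1 < n) (hc : ¬ n.Prime) (h : n.totient ∣ n - 1)
    (T : Finset ℕ) (hTp : ∀ q ∈ T, q.Prime) (h2T : 2 ∈ T) (hT : (n - 1).primeFactors ⊆ T)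
    (R E : List ℕ) (hR : ∀ q ∈ R, q ∈ T) (hRn : R.Nodup) (hR2 : 2 ∉ R)
    (hE : ∀ q ∈ E, q ∈ (n - 1).primeFactors) (TK B : ℕ)
    (hTK : (K : ℝ) * ((1/2) * ∏ q ∈ T, (1 - ((q : ℝ))⁻¹)⁻¹) ≤ TK)
    (hchk : chkG R E TK B = true) : False := by
  have hRp : ∀ q ∈ R, q.Prime := fun q hq => hTp q (hR q hq)
  apply contra n hn hc h
  unfold chkG at hchk
  rw [Nat.blt_eq] at hchk
  refine num_bound T hTp (Uset n) (glist R B)
    (glist_nodup R B hRp hRn hR2) ?_ ?_ (good1 E) ?_ TK hTK hchk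
  · intro u hu
    obtain ⟨h1, h2, h3⟩ := Uset_smooth n hn hc h u hu
    exact ⟨h1, h2, fun q hq hqu => hT (h3 q hq hqu)⟩
  · intro u hu
    obtain ⟨h1, h2, h3⟩ := glist_spec R B hRp u hu
    refine ⟨h1, h2, fun q hq hqu => ?_⟩
    rcases h3 q hq hqu with h | h
    · rw [h]; exact h2T
    · exact hR q h
  · intro u hu _
    exact good1_of E n u hn hu hE

/-- General closing lemma: with `D`. -/
lemma closeGD (n : ℕ) (hn : 1 < n) (hc : ¬ n.Prime) (h : n.totient ∣ n - 1)
    (T : Finset ℕ) (hTp : ∀ q ∈ T, q.Prime) (h2T : 2 ∈ T) (hT : (n - 1).primeFactors ⊆ T)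
    (R E : List ℕ) (hR : ∀ q ∈ R, q ∈ T) (hRn : R.Nodup) (hR2 : 2 ∉ R)
    (hE : ∀ q ∈ E, q ∈ (n - 1).primeFactors) (TK B : ℕ)
    (hTK : (K : ℝ) * ((1/2) * ∏ q ∈ T, (1 - ((q : ℝ))⁻¹)⁻¹) ≤ TK)
    (D m : ℕ) (hD : m ^ 2 * D = n - 1)
    (hchk : chkGD R E D TK B = true) : False := by
  have hRp : ∀ q ∈ R, q.Prime := fun q hq => hTp q (hR q hq)
  apply contra n hn hc h
  unfold chkGD at hchk
  rw [Nat.blt_eq] at hchk
  refine num_bound T hTp (Uset n) (glist R B)
    (glist_nodup R B hRp hRn hR2) ?_ ?_ (fun u => good1 E u && goodD D u) ?_ TK hTK hchk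
  · intro u hu
    obtain ⟨h1, h2, h3⟩ := Uset_smooth n hn hc h u hu
    exact ⟨h1, h2, fun q hq hqu => hT (h3 q hq hqu)⟩
  · intro u hu
    obtain ⟨h1, h2, h3⟩ := glist_spec R B hRp u hu
    refine ⟨h1, h2, fun q hq hqu => ?_⟩
    rcases h3 q hq hqu with h | h
    · rw [h]; exact h2T
    · exact hR q h
  · intro u hu _
    simp only [Bool.and_eq_true]
    exact ⟨good1_of E n u hn hu hE, goodD_of D m n u hn hu (basic n hn hc h).2.1 hD⟩

/-- Divisors of the squarefree part. -/
def Ds (S : List ℕ) : List ℕ := S.foldr (fun q l => l ++ l.map (fun d => d * q)) [1]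

lemma mem_Ds (S : List ℕ) (hS : ∀ q ∈ S, q.Prime) (hnd : S.Nodup) (D : ℕ) (hD : Squarefree D)
    (hsub : ∀ q : ℕ, q.Prime → q ∣ D → q ∈ S) : D ∈ Ds S := by
  induction S generalizing D with
  | nil =>
    have : D = 1 := by
      by_contra h1
      obtain ⟨p, hp, hpd⟩ := Nat.exists_prime_and_dvd h1
      exact absurd (hsub p hp hpd) List.not_mem_nil
    subst this
    simp [Ds]
  | cons a l ih =>
    have ha := hS a List.mem_cons_self
    have hnd' := List.nodup_cons.mp hnd
    have hS' : ∀ q ∈ l, q.Prime := fun q hq => hS q (List.mem_cons_of_mem _ hq)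
    have hDs : Ds (a :: l) = Ds l ++ (Ds l).map (fun d => d * a) := rfl
    rw [hDs, List.mem_append, List.mem_map]
    by_cases haD : a ∣ D
    · right
      obtain ⟨E, rfl⟩ := haD
      have hE : Squarefree E := by
        rw [Nat.squarefree_mul_iff] at hD
        exact hD.2.2
      have hcop : Nat.Coprime a E := by
        rw [Nat.squarefree_mul_iff] at hD
        exact hD.1
      refine ⟨E, ih hS' hnd'.2 E hE ?_, mul_comm _ _⟩
      intro q hq hqE
      have := hsub q hq (Dvd.dvd.mul_left hqE a)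
      rw [List.mem_cons] at this
      rcases this with rfl | h'
      · exfalso
        have := Nat.Coprime.eq_one_of_dvd hcop hqE
        exact hq.one_lt.ne' this
      · exact h'
    · left
      apply ih hS' hnd'.2 D hD
      intro q hq hqD
      have := hsub q hq hqD
      rw [List.mem_cons] at this
      rcases this with rfl | h'
      · exact absurd hqD haD
      · exact h'

/-- Full check for the set `{2} ∪ R` of primes, with quadratic residues. -/
def chkAll (R : List ℕ) (T B : ℕ) : Bool := (Ds (2 :: R)).all (fun D => chkGD R R D T B)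

/-- Automatic check. -/
def auto (R : List ℕ) : Bool :=
  chkG R R (TKof (2 :: R)) 200 || (chkG R R (TKof (2 :: R)) 1000 ||
  (chkG R R (TKof (2 :: R)) 5000 || (chkAll R (TKof (2 :: R)) 500 ||
  (chkAll R (TKof (2 :: R)) 2000 || chkAll R (TKof (2 :: R)) 5000))))

lemma closeAll (n : ℕ) (hn : 1 < n) (hc : ¬ n.Prime) (h : n.totient ∣ n - 1)
    (R : List ℕ) (hR : ∀ q ∈ R, q.Prime) (hnd : R.Nodup) (h2 : 2 ∉ R)
    (hsub : (n - 1).primeFactors = (2 :: R).toFinset) (B : ℕ)
    (hchk : chkAll R (TKof (2 :: R)) B = true) : False := by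
  have hnd2 : (2 :: R).Nodup := List.nodup_cons.mpr ⟨h2, hnd⟩
  have hR2 : ∀ q ∈ (2 :: R), q.Prime := by
    intro q hq
    rw [List.mem_cons] at hq
    rcases hq with rfl | hq
    · exact Nat.prime_two
    · exact hR q hq
  obtain ⟨D, m, hD, hDsq⟩ := Nat.sq_mul_squarefree (n - 1)
  have hmem : D ∈ Ds (2 :: R) := by
    apply mem_Ds (2 :: R) hR2 hnd2 D hDsq
    intro q hq hqD
    have : q ∈ (n - 1).primeFactors := by
      rw [Nat.mem_primeFactors]
      refine ⟨hq, ?_, by omega⟩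
      rw [← hD]
      exact Dvd.dvd.mul_left hqD _
    rw [hsub, List.mem_toFinset] at this
    exact this
  unfold chkAll at hchk
  rw [List.all_eq_true] at hchk
  refine closeGD n hn hc h (2 :: R).toFinset (fun q hq => hR2 q (List.mem_toFinset.mp hq))
    (List.mem_toFinset.mpr List.mem_cons_self) hsub.subset R R
    (fun q hq => List.mem_toFinset.mpr (List.mem_cons_of_mem _ hq)) hnd h2 ?_ _ B
    (TKof_spec (2 :: R) hR2 hnd2) D m hD (hchk D hmem)
  intro q hq
  rw [hsub, List.mem_toFinset]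
  exact List.mem_cons_of_mem _ hq

lemma closeAuto (n : ℕ) (hn : 1 < n) (hc : ¬ n.Prime) (h : n.totient ∣ n - 1)
    (R : List ℕ) (hR : ∀ q ∈ R, q.Prime) (hnd : R.Nodup) (h2 : 2 ∉ R)
    (hsub : (n - 1).primeFactors = (2 :: R).toFinset)
    (hchk : auto R = true) : False := by
  have hnd2 : (2 :: R).Nodup := List.nodup_cons.mpr ⟨h2, hnd⟩
  have hR2 : ∀ q ∈ (2 :: R), q.Prime := by
    intro q hq
    rw [List.mem_cons] at hq
    rcases hq with rfl | hq
    · exact Nat.prime_two
    · exact hR q hq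
  have plain : ∀ B, chkG R R (TKof (2 :: R)) B = true → False := by
    intro B hB
    refine closeG n hn hc h (2 :: R).toFinset (fun q hq => hR2 q (List.mem_toFinset.mp hq))
      (List.mem_toFinset.mpr List.mem_cons_self) hsub.subset R R
      (fun q hq => List.mem_toFinset.mpr (List.mem_cons_of_mem _ hq)) hnd h2 ?_ _ B
      (TKof_spec (2 :: R) hR2 hnd2) hB
    intro q hq
    rw [hsub, List.mem_toFinset]
    exact List.mem_cons_of_mem _ hq
  unfold auto at hchk
  rw [Bool.or_eq_true, Bool.or_eq_true, Bool.or_eq_true, Bool.or_eq_true, Bool.or_eq_true] at hchk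
  rcases hchk with hB | hB | hB | hB | hB | hB
  · exact plain _ hB
  · exact plain _ hB
  · exact plain _ hB
  · exact closeAll n hn hc h R hR hnd h2 hsub _ hB
  · exact closeAll n hn hc h R hR hnd h2 hsub _ hB
  · exact closeAll n hn hc h R hR hnd h2 hsub _ hB

theorem auto_5 : auto [3,5] = true := by decide +kernel
theorem auto_11 : auto [3,11] = true := by decide +kernel
theorem auto_29 : auto [3,29] = true := by decide +kernel
theorem auto_x : auto [3,29,131] = true := by decide +kernel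

end Pool.H688.Lehmer
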