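import Mathlib
import Pool.Prelude.Def_F_72ad9e24

set_option autoImplicit false

namespace Pool.H688.Lehmer

lemma foldr_max_mem (l : List ℕ) : l.foldr max 0 = 0 ∨ l.foldr max 0 ∈ l := by
  induction l with
  | nil => left; rfl
  | cons a l ih =>
    right
    simp only [List.foldr_cons]
    rcases le_total a (l.foldr max 0) with h | h
    · rw [max_eq_right h]
      rcases ih with h0 | h0
      · rw [h0] at h ⊢
        have : a = 0 := by omega
        rw [this]; exact List.mem_cons_self
      · exact List.mem_cons_of_mem _ h0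
    · rw [max_eq_left h]
      exact List.mem_cons_self

lemma le_foldr_max (l : List ℕ) (x : ℕ) (hx : x ∈ l) : x ≤ l.foldr max 0 := by
  induction l with
  | nil => exact absurd hx List.not_mem_nil
  | cons a l ih =>
    simp only [List.foldr_cons]
    rw [List.mem_cons] at hx
    rcases hx with rfl | hx
    · exact le_max_left _ _
    · exact le_trans (ih hx) (le_max_right _ _)

lemma a_attained (n : ℕ) (hn : 1 < n) : 1 ≤ Nca8c8b9b.a n ∧
    ∃ p : ℕ, p.Prime ∧ p ^ (Nca8c8b9b.a n) ∣ n := by
  have hne : n.primeFactorsList ≠ [] := by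
    intro h
    have := (Nat.primeFactorsList_eq_nil n).mp h
    omega
  obtain ⟨q, hq⟩ := List.exists_mem_of_ne_nil _ hne
  have h1 : 1 ≤ Nca8c8b9b.a n := by
    unfold Nca8c8b9b.a
    refine le_trans ?_ (le_foldr_max _ (n.primeFactorsList.count q) ?_)
    · exact List.count_pos_iff.mpr hq
    · exact List.mem_map.mpr ⟨q, hq, rfl⟩
  refine ⟨h1, ?_⟩
  rcases foldr_max_mem (n.primeFactorsList.map (n.primeFactorsList.count ·)) with h0 | h0
  · exfalso
    unfold Nca8c8b9b.a at h1
    omega
  · rw [List.mem_map] at h0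
    obtain ⟨p, hp, hpc⟩ := h0
    refine ⟨p, Nat.prime_of_mem_primeFactorsList hp, ?_⟩
    have h2 : Nca8c8b9b.a n = n.factorization p := by
      unfold Nca8c8b9b.a
      rw [← hpc, Nat.primeFactorsList_count_eq]
    rw [h2]
    exact Nat.ordProj_dvd n p

/-- The page's congruence implies Lehmer's. -/
theorem reduce (n : ℕ) (hn : 4 < n) (h : n.totient ∣ n - Nca8c8b9b.a n) : n.totient ∣ n - 1 := by
  obtain ⟨h1, p, hp, hpn⟩ := a_attained n (by omega)
  set e := Nca8c8b9b.a n with he
  rcases Nat.lt_or_ge 1 e with h2 | h2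
  swap
  · have : e = 1 := by omega
    rw [this] at h
    exact h
  exfalso
  have hlt : e < 2 ^ e := Nat.lt_two_pow_self
  have hle : 2 ^ e ≤ p ^ e := Nat.pow_le_pow_left hp.two_le e
  have hpe : p ^ e ≤ n := Nat.le_of_dvd (by omega) hpn
  have hen : e ≤ n := by omega
  have ht : p ^ (e - 1) ∣ n.totient := by
    have h3 := Nat.totient_dvd_of_dvd hpn
    rw [Nat.totient_prime_pow hp (by omega)] at h3
    exact dvd_trans (Dvd.intro _ rfl) h3
  have h4 : p ^ (e - 1) ∣ n := dvd_trans (pow_dvd_pow p (by omega)) hpn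
  have h5 : p ^ (e - 1) ∣ e := by
    have := Nat.dvd_sub h4 (dvd_trans ht h)
    have h6 : n - (n - e) = e := by omega
    rwa [h6] at this
  have h6 : p ^ (e - 1) ≤ e := Nat.le_of_dvd (by omega) h5
  have h7 : 2 ^ (e - 1) ≤ p ^ (e - 1) := Nat.pow_le_pow_left hp.two_le _
  have h8 : e = 2 := by
    by_contra hne
    have h9 : 3 ≤ e := by omega
    have h10 : e < 2 ^ (e - 1) := by
      obtain ⟨k, hk⟩ := Nat.exists_eq_add_of_le h9
      rw [hk]
      have : 3 + k - 1 = k + 2 := by omega
      rw [this, pow_add]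
      have : k < 2 ^ k := Nat.lt_two_pow_self
      omega
    omega
  rw [h8] at h h5 h6 hpn h4
  have hp2 : p = 2 := by
    have := hp.two_le
    norm_num at h6
    omega
  subst hp2
  norm_num at hpn
  by_cases h8n : 8 ∣ n
  · have h3 := Nat.totient_dvd_of_dvd h8n
    have h9 : Nat.totient 8 = 4 := by decide
    rw [h9] at h3
    have := dvd_trans h3 h
    omega
  · obtain ⟨m, hm⟩ := hpn
    have hmo : ¬ 2 ∣ m := by
      intro h'; apply h8n; rw [hm]; omega
    have hcop : Nat.Coprime 4 m := by
      have : Nat.Coprime 2 m := (Nat.Prime.coprime_iff_not_dvd Nat.prime_two).mpr hmo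
      exact Nat.Coprime.pow_left 2 this
    rw [hm, Nat.totient_mul hcop] at h
    have h9 : Nat.totient 4 = 2 := by decide
    rw [h9] at h
    have hm1 : 1 < m := by omega
    have hm2 : 2 < m := by
      rcases Nat.lt_or_ge 2 m with h' | h'
      · exact h'
      · exfalso; apply hmo
        have : m = 2 := by omega
        rw [this]
    have hev := (Nat.totient_even hm2).two_dvd
    obtain ⟨c, hc⟩ := hev
    rw [hc] at h
    obtain ⟨d, hd⟩ := h
    have : 4 * m - 2 = 4 * (c * d) := by
      rw [hd]; ring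
    omega

end Pool.H688.Lehmer
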