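import Mathlib
import Pool.Agent.H688.LehmerGen

set_option autoImplicit false
set_option maxRecDepth 100000

namespace Pool.H688.Lehmer

open Finset

/-- sublists -/
def subs : List ℕ → List (List ℕ)
  | [] => [[]]
  | a :: l => subs l ++ (subs l).map (fun s => a :: s)

lemma filter_mem_subs (l : List ℕ) (f : ℕ → Bool) : l.filter f ∈ subs l := by
  induction l with
  | nil => simp [subs]
  | cons a l ih =>
    unfold subs
    rw [List.mem_append, List.mem_map]
    cases h : f a with
    | false => left; rw [List.filter_cons_of_neg (by simp [h])]; exact ih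
    | true => right; exact ⟨_, ih, by rw [List.filter_cons_of_pos h]⟩

/-- one entry of the plan: even code = plain check up to `c/2`, odd code = residue check up to `c/2` -/
def chk1 (R : List ℕ) (c : ℕ) : Bool :=
  bif c % 2 == 0 then chkG R R (TKof (2 :: R)) (c / 2) else chkAll R (TKof (2 :: R)) (c / 2)

def chkPlan : List (List ℕ) → List ℕ → Bool
  | [], _ => true
  | _ :: _, [] => false
  | R :: l, c :: cs => chk1 R c && chkPlan l cs

lemma chkPlan_spec (l : List (List ℕ)) (cs : List ℕ) (h : chkPlan l cs = true) (R : List ℕ)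
    (hR : R ∈ l) : ∃ c, chk1 R c = true := by
  induction l generalizing cs with
  | nil => exact absurd hR List.not_mem_nil
  | cons A l ih =>
    cases cs with
    | nil => simp [chkPlan] at h
    | cons c cs =>
      simp only [chkPlan, Bool.and_eq_true] at h
      rw [List.mem_cons] at hR
      rcases hR with rfl | hR
      · exact ⟨c, h.1⟩
      · exact ih cs h.2 hR

lemma closeOne (n : ℕ) (hn : 1 < n) (hc : ¬ n.Prime) (h : n.totient ∣ n - 1)
    (R : List ℕ) (hR : ∀ q ∈ R, q.Prime) (hnd : R.Nodup) (h2 : 2 ∉ R)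
    (hsub : (n - 1).primeFactors = (2 :: R).toFinset) (c : ℕ)
    (hchk : chk1 R c = true) : False := by
  have hnd2 : (2 :: R).Nodup := List.nodup_cons.mpr ⟨h2, hnd⟩
  have hR2 : ∀ q ∈ (2 :: R), q.Prime := by
    intro q hq
    rw [List.mem_cons] at hq
    rcases hq with rfl | hq
    · exact Nat.prime_two
    · exact hR q hq
  unfold chk1 at hchk
  cases hb : (c % 2 == 0) with
  | false =>
    rw [hb, cond_false] at hchk
    exact closeAll n hn hc h R hR hnd h2 hsub _ hchk
  | true =>
    rw [hb, cond_true] at hchk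
    refine closeG n hn hc h (2 :: R).toFinset (fun q hq => hR2 q (List.mem_toFinset.mp hq))
      (List.mem_toFinset.mpr List.mem_cons_self) hsub.subset R R
      (fun q hq => List.mem_toFinset.mpr (List.mem_cons_of_mem _ hq)) hnd h2 ?_ _ _
      (TKof_spec (2 :: R) hR2 hnd2) hchk
    intro q hq
    rw [hsub, List.mem_toFinset]
    exact List.mem_cons_of_mem _ hq

/-- General smoothness theorem from a plan. -/
theorem smooth_contra (l : List ℕ) (hl : ∀ q ∈ l, q.Prime) (hnd : l.Nodup) (h2 : 2 ∉ l)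
    (cs : List ℕ) (hplan : chkPlan (subs l) cs = true)
    (n : ℕ) (hn : 1 < n) (hc : ¬ n.Prime) (h : n.totient ∣ n - 1)
    (hsm : ∀ q : ℕ, q.Prime → q ∣ n - 1 → q = 2 ∨ q ∈ l) : False := by
  have hodd := (basic n hn hc h).2.1
  obtain ⟨c, hc1⟩ := chkPlan_spec _ _ hplan _ (filter_mem_subs l (fun q => decide (q ∣ n - 1)))
  refine closeOne n hn hc h _ ?_ ?_ ?_ ?_ c hc1
  · intro q hq
    exact hl q (List.mem_of_mem_filter hq)
  · exact hnd.filter _
  · intro h'
    exact h2 (List.mem_of_mem_filter h')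
  · ext q
    rw [List.toFinset_cons, Finset.mem_insert, List.mem_toFinset, List.mem_filter,
      Nat.mem_primeFactors, decide_eq_true_eq]
    constructor
    · rintro ⟨hq, hqd, hn0⟩
      rcases hsm q hq hqd with h' | h'
      · left; exact h'
      · right; exact ⟨h', hqd⟩
    · rintro (rfl | ⟨hq, hqd⟩)
      · exact ⟨Nat.prime_two, by omega, by omega⟩
      · exact ⟨hl q hq, hqd, by omega⟩

/-! ### The same with the primes of `φ(n)` -/

lemma Uset_smooth' (n : ℕ) (hn : 1 < n) (hc : ¬ n.Prime) (h : n.totient ∣ n - 1) :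
    ∀ u ∈ Uset n, u ≠ 0 ∧ 2 ∣ u ∧ ∀ q : ℕ, q.Prime → q ∣ u → q ∈ n.totient.primeFactors := by
  intro u hu
  obtain ⟨h1, h2, _⟩ := Uset_smooth n hn hc h u hu
  refine ⟨h1, h2, fun q hq hqu => ?_⟩
  obtain ⟨h4, h5, _⟩ := mem_Uset hu
  have h6 : u ∣ n.totient := by
    have := Nat.totient_dvd_of_dvd h5
    rw [Nat.totient_prime h4] at this
    simpa using this
  rw [Nat.mem_primeFactors]
  exact ⟨hq, dvd_trans hqu h6, (Nat.totient_pos.mpr (by omega : 0 < n)).ne'⟩

/-- Bound `< 3` for the product. -/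
def chk3 (R : List ℕ) (B : ℕ) : Bool :=
  Nat.blt (X (good1 R) (glist R B)) (3 * (K - (TKof (2 :: R) - Y (glist R B))))

/-- If the product is `< 3` then `n - 1 = 2 φ(n)` or `4 φ(n)`. -/
lemma primeFactors_eq (n : ℕ) (hn : 1 < n) (hc : ¬ n.Prime) (h : n.totient ∣ n - 1)
    (hP : ∏ u ∈ Uset n, (1 + ((u : ℝ))⁻¹) < 3) :
    (n - 1).primeFactors = n.totient.primeFactors := by
  obtain ⟨hsq, hodd, k, hk2, hk⟩ := basic n hn hc h
  have hinj : Set.InjOn (fun p : ℕ => p - 1) ((n.primeFactors.erase 3 : Finset ℕ) : Set ℕ) := by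
    intro a ha b hb hab
    have h1 := (Nat.prime_of_mem_primeFactors (Finset.mem_erase.mp (Finset.mem_coe.mp ha)).2).two_le
    have h2 := (Nat.prime_of_mem_primeFactors (Finset.mem_erase.mp (Finset.mem_coe.mp hb)).2).two_le
    simp only at hab
    omega
  unfold Uset at hP
  rw [Finset.prod_image hinj] at hP
  have hn' := n_eq_prod n hsq
  have htpos0 : 0 < n.totient := Nat.totient_pos.mpr (by omega : 0 < n)
  have htpos : (0 : ℝ) < n.totient := by exact_mod_cast htpos0
  have hreal : (n : ℝ) = k * n.totient + 1 := by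
    have : n = k * n.totient + 1 := by omega
    calc (n : ℝ) = ((k * n.totient + 1 : ℕ) : ℝ) := by rw [← this]
      _ = _ := by push_cast; ring
  have hk24 : k = 2 ∨ k = 4 := by
    by_cases h3 : 3 ∣ n
    · have hk4 := three_dvd n k hsq hk hk2 h3
      right
      have hmem : 3 ∈ n.primeFactors := by
        rw [Nat.mem_primeFactors]; exact ⟨Nat.prime_three, h3, by omega⟩
      rw [← Finset.mul_prod_erase _ _ hmem] at hn'
      norm_num at hn'
      have h6 : (n : ℝ) < n.totient * 5 := by
        rw [hn']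
        have : (3 / 2 : ℝ) * ∏ p ∈ n.primeFactors.erase 3, (1 + (((p - 1 : ℕ) : ℝ))⁻¹) < 5 := by
          linarith
        calc _ = (n.totient : ℝ) * ((3 / 2 : ℝ) * ∏ p ∈ n.primeFactors.erase 3, (1 + (((p - 1 : ℕ) : ℝ))⁻¹)) := by ring_nf
          _ < _ := mul_lt_mul_of_pos_left this htpos
      by_contra hne
      have hk5 : 5 ≤ k := by omega
      have hk5' : (5 : ℝ) ≤ k := by exact_mod_cast hk5
      nlinarith
    · left
      have hmem : 3 ∉ n.primeFactors := by
        intro h'; exact h3 (Nat.dvd_of_mem_primeFactors h')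
      rw [Finset.erase_eq_of_notMem hmem] at hP
      by_contra hne
      have hk3 : 3 ≤ k := by omega
      have hk3' : (3 : ℝ) ≤ k := by exact_mod_cast hk3
      have h6 : (n : ℝ) < n.totient * 3 := by
        calc (n : ℝ) = _ := hn'
          _ < _ := mul_lt_mul_of_pos_left hP htpos
      nlinarith
  have h2t : 2 ∣ n.totient := by
    have h3n : 2 < n := by
      rcases Nat.lt_or_ge 2 n with h' | h'
      · exact h'
      · exfalso
        have : n = 2 := by omega
        subst this
        exact hc Nat.prime_two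
    exact (Nat.totient_even h3n).two_dvd
  ext q
  rw [Nat.mem_primeFactors, Nat.mem_primeFactors]
  constructor
  · rintro ⟨hq, hqd, -⟩
    refine ⟨hq, ?_, by omega⟩
    rw [hk] at hqd
    rcases (Nat.Prime.dvd_mul hq).mp hqd with h' | h'
    · have hq2 : q = 2 := by
        rcases hk24 with rfl | rfl
        · exact (Nat.prime_dvd_prime_iff_eq hq Nat.prime_two).mp h'
        · have : q ∣ 2 ^ 2 := by simpa using h'
          exact (Nat.prime_dvd_prime_iff_eq hq Nat.prime_two).mp (hq.dvd_of_dvd_pow this)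
      rw [hq2]; exact h2t
    · exact h'
  · rintro ⟨hq, hqd, -⟩
    exact ⟨hq, dvd_trans hqd h, by omega⟩

/-- one entry of the plan, together with the bound `< 3` for residue checks -/
def chk1' (R : List ℕ) (c : ℕ) : Bool := chk1 R c && (c % 2 == 0 || chk3 R 1000)

def chkPlan' : List (List ℕ) → List ℕ → Bool
  | [], _ => true
  | _ :: _, [] => false
  | R :: l, c :: cs => chk1' R c && chkPlan' l cs

lemma chkPlan_spec' (l : List (List ℕ)) (cs : List ℕ) (h : chkPlan' l cs = true) (R : List ℕ)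
    (hR : R ∈ l) : ∃ c, chk1' R c = true := by
  induction l generalizing cs with
  | nil => exact absurd hR List.not_mem_nil
  | cons A l ih =>
    cases cs with
    | nil => simp [chkPlan'] at h
    | cons c cs =>
      simp only [chkPlan', Bool.and_eq_true] at h
      rw [List.mem_cons] at hR
      rcases hR with rfl | hR
      · exact ⟨c, h.1⟩
      · exact ih cs h.2 hR

lemma closeOne' (n : ℕ) (hn : 1 < n) (hc : ¬ n.Prime) (h : n.totient ∣ n - 1)
    (R : List ℕ) (hR : ∀ q ∈ R, q.Prime) (hnd : R.Nodup) (h2 : 2 ∉ R)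
    (hsub : n.totient.primeFactors = (2 :: R).toFinset) (c : ℕ)
    (hchk : chk1' R c = true) : False := by
  have hnd2 : (2 :: R).Nodup := List.nodup_cons.mpr ⟨h2, hnd⟩
  have hR2 : ∀ q ∈ (2 :: R), q.Prime := by
    intro q hq
    rw [List.mem_cons] at hq
    rcases hq with rfl | hq
    · exact Nat.prime_two
    · exact hR q hq
  have htpos0 : 0 < n.totient := Nat.totient_pos.mpr (by omega : 0 < n)
  have hsm := Uset_smooth' n hn hc h
  rw [hsub] at hsm
  have hE : ∀ q ∈ R, q ∈ (n - 1).primeFactors := by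
    intro q hq
    have h1 : q ∈ n.totient.primeFactors := by
      rw [hsub, List.mem_toFinset]; exact List.mem_cons_of_mem _ hq
    rw [Nat.mem_primeFactors] at h1 ⊢
    exact ⟨h1.1, dvd_trans h1.2.1 h, by omega⟩
  have hlist : ∀ B, ∀ u ∈ glist R B, u ≠ 0 ∧ 2 ∣ u ∧ ∀ q : ℕ, q.Prime → q ∣ u →
      q ∈ (2 :: R).toFinset := by
    intro B u hu
    obtain ⟨h1, h2, h3⟩ := glist_spec R B hR u hu
    refine ⟨h1, h2, fun q hq hqu => ?_⟩
    rw [List.mem_toFinset, List.mem_cons]
    exact h3 q hq hqu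
  have hT : ∀ q ∈ (2 :: R).toFinset, q.Prime := fun q hq => hR2 q (List.mem_toFinset.mp hq)
  unfold chk1' at hchk
  rw [Bool.and_eq_true, Bool.or_eq_true] at hchk
  obtain ⟨hc1, hc3⟩ := hchk
  cases hb : (c % 2 == 0) with
  | false =>
    rw [hb] at hc3
    have hc3' : chk3 R 1000 = true := by
      rcases hc3 with h' | h'
      · exact absurd h' (by simp)
      · exact h'
    unfold chk3 at hc3'
    rw [Nat.blt_eq] at hc3'
    have h3 := num_bound_gen 3 (2 :: R).toFinset hT (Uset n) (glist R 1000)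
      (glist_nodup R 1000 hR hnd h2) hsm (hlist 1000) (good1 R)
      (fun u hu _ => good1_of R n u hn hu hE) _ (TKof_spec (2 :: R) hR2 hnd2) hc3'
    have h4 := primeFactors_eq n hn hc h (by exact_mod_cast h3)
    exact closeOne n hn hc h R hR hnd h2 (by rw [h4, hsub]) c hc1
  | true =>
    unfold chk1 at hc1
    rw [hb, cond_true] at hc1
    unfold chkG at hc1
    rw [Nat.blt_eq] at hc1
    apply contra n hn hc h
    exact num_bound (2 :: R).toFinset hT (Uset n) (glist R (c / 2))
      (glist_nodup R (c / 2) hR hnd h2) hsm (hlist (c / 2)) (good1 R)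
      (fun u hu _ => good1_of R n u hn hu hE) _ (TKof_spec (2 :: R) hR2 hnd2) hc1

/-- General smoothness theorem for `φ(n)` from a plan. -/
theorem smooth_contra' (l : List ℕ) (hl : ∀ q ∈ l, q.Prime) (hnd : l.Nodup) (h2 : 2 ∉ l)
    (cs : List ℕ) (hplan : chkPlan' (subs l) cs = true)
    (n : ℕ) (hn : 1 < n) (hc : ¬ n.Prime) (h : n.totient ∣ n - 1)
    (hsm : ∀ q : ℕ, q.Prime → q ∣ n.totient → q = 2 ∨ q ∈ l) : False := by
  have hodd := (basic n hn hc h).2.1
  have h2t : 2 ∣ n.totient := by
    have h3n : 2 < n := by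
      rcases Nat.lt_or_ge 2 n with h' | h'
      · exact h'
      · exfalso
        have : n = 2 := by omega
        subst this
        exact hc Nat.prime_two
    exact (Nat.totient_even h3n).two_dvd
  have htpos0 : n.totient ≠ 0 := (Nat.totient_pos.mpr (by omega : 0 < n)).ne'
  obtain ⟨c, hc1⟩ := chkPlan_spec' _ _ hplan _ (filter_mem_subs l (fun q => decide (q ∣ n.totient)))
  refine closeOne' n hn hc h _ ?_ ?_ ?_ ?_ c hc1
  · intro q hq
    exact hl q (List.mem_of_mem_filter hq)
  · exact hnd.filter _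
  · intro h'
    exact h2 (List.mem_of_mem_filter h')
  · ext q
    rw [List.toFinset_cons, Finset.mem_insert, List.mem_toFinset, List.mem_filter,
      Nat.mem_primeFactors, decide_eq_true_eq]
    constructor
    · rintro ⟨hq, hqd, hn0⟩
      rcases hsm q hq hqd with h' | h'
      · left; exact h'
      · right; exact ⟨h', hqd⟩
    · rintro (rfl | ⟨hq, hqd⟩)
      · exact ⟨Nat.prime_two, h2t, htpos0⟩
      · exact ⟨hl q hq, hqd, htpos0⟩

def plan29 : List ℕ := [
  200, 200, 200, 200, 200, 200, 200, 200, 200, 200, 200, 200, 200, 200, 200, 200, 200, 200, 200,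
  200, 200, 200, 200, 200, 200, 200, 200, 200, 200, 200, 200, 200, 200, 200, 200, 200, 200, 200,
  200, 200, 200, 200, 200, 200, 200, 200, 200, 200, 200, 200, 200, 200, 200, 200, 200, 200, 200,
  200, 200, 200, 200, 200, 200, 200, 200, 200, 200, 200, 200, 200, 200, 200, 200, 200, 200, 200,
  200, 200, 200, 200, 200, 200, 200, 200, 200, 200, 200, 200, 200, 200, 200, 200, 200, 200, 200,
  200, 200, 200, 200, 200, 200, 200, 200, 200, 200, 200, 200, 200, 200, 200, 200, 200, 200, 200,
  200, 200, 200, 200, 200, 200, 200, 200, 200, 200, 200, 200, 200, 200, 200, 200, 200, 200, 200,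
  200, 200, 200, 200, 200, 200, 200, 200, 200, 200, 200, 200, 200, 200, 200, 200, 200, 200, 200,
  200, 200, 200, 200, 200, 200, 200, 200, 200, 200, 200, 200, 200, 200, 200, 200, 200, 200, 200,
  200, 200, 200, 200, 200, 200, 200, 200, 200, 200, 200, 200, 200, 200, 200, 200, 200, 200, 200,
  200, 200, 200, 200, 200, 200, 200, 200, 200, 200, 200, 200, 200, 200, 200, 200, 200, 200, 200,
  200, 200, 200, 200, 200, 200, 200, 200, 200, 200, 200, 200, 200, 200, 200, 200, 200, 200, 200,
  200, 200, 200, 200, 200, 200, 200, 200, 200, 200, 200, 200, 200, 200, 200, 200, 200, 200, 200,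
  400, 200, 200, 200, 200, 200, 400, 400, 400, 400, 10000, 401, 1001, 400, 1000, 1000, 10000, 400,
  1400, 2000, 1001, 400, 600, 1000, 3000, 400, 1400, 2000, 1001, 400, 1000, 1000, 4000, 400, 1000,
  1400, 10000, 400, 1000, 1000, 3000, 401, 1401, 3001, 30001, 1001, 3001, 1001, 30001, 601, 10001,
  2001, 6001, 10000, 3001, 10000, 6001, 601, 2001, 1401, 4001, 10000, 1401, 14000, 4001, 60000,
  3001, 60000, 6001, 6000, 100000, 6000, 100000, 400, 400, 1000, 1400, 400, 400, 1000, 1400, 400,
  600, 1400, 1400, 400, 600, 1000, 1400, 400, 600, 1400, 2000, 600, 600, 1000, 1400, 600, 1000,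
  1400, 2000, 600, 1000, 1400, 2000, 401, 601, 1001, 1401, 4000, 6000, 6000, 10000, 10000, 14000,
  14000, 20000, 4000, 6000, 6000, 10000, 10000, 14000, 20000, 30000, 4000, 6000, 6000, 10000,
  10000, 10000, 14000, 20000, 6000, 10000, 10000, 14000, 1000, 30000, 601, 1001, 1000, 4000, 6000,
  1401, 1000, 4000, 10000, 1001, 1000, 3000, 4000, 30000, 1400, 10000, 30000, 3001, 1400, 4000,
  6000, 400000, 1400, 6000, 10000, 3001, 1400, 4000, 6000, 40000, 3000, 601, 6000, 1001, 2000,
  14000, 4000, 20000, 3000, 14000, 4000, 30000, 3000, 10000, 4000, 14000, 4000, 40000, 6000,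
  200000, 3000, 14000, 6000, 30000, 4000, 20000, 6000, 40000, 4000, 14000, 6000, 30000, 2000,
  3000, 30000, 40000, 2000, 3000, 10000, 14000, 2000, 3000, 14000, 30000, 2000, 3000, 10000,
  14000, 3000, 4000, 30000, 60000, 3000, 4000, 14000, 20000, 4000, 6000, 30000, 40000, 4000, 6000,
  20000, 30000, 6000, 10000, 10000, 14000, 4000, 10000, 10000, 14000, 6000, 10000, 10000, 20000,
  6000, 10000, 10000, 20000, 10000, 14000, 20000, 30000, 10000, 14000, 14000, 30000, 10000, 20000,
  20000, 40000, 10000, 20000, 20000, 40000]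

theorem plan29_ok : chkPlan' (subs [3, 5, 7, 11, 13, 17, 19, 23, 29]) plan29 = true := by
  decide +kernel

/-- some `p - 1`, `p ∣ n` prime, has a prime factor at least `31`. -/
theorem large_prime (n : ℕ) (hn : 1 < n) (hc : ¬ n.Prime) (h : n.totient ∣ n - 1) :
    ∃ p q : ℕ, p.Prime ∧ p ∣ n ∧ q.Prime ∧ q ∣ p - 1 ∧ 31 ≤ q := by
  have hmain : ∃ q : ℕ, q.Prime ∧ q ∣ n.totient ∧ 31 ≤ q := by
    by_contra hcon
    push Not at hcon
    refine smooth_contra' [3, 5, 7, 11, 13, 17, 19, 23, 29] ?_ (by decide) (by decide) plan29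
      plan29_ok n hn hc h ?_
    · intro q hq
      simp only [List.mem_cons, List.not_mem_nil, or_false] at hq
      rcases hq with rfl | rfl | rfl | rfl | rfl | rfl | rfl | rfl | rfl <;> norm_num
    · intro q hq hqd
      have hlt : q < 31 := hcon q hq hqd
      have h0 := hq.two_le
      interval_cases q <;> first | decide | (exfalso; revert hq; norm_num)
  obtain ⟨q, hq, hqd, h31⟩ := hmain
  have hsq := (basic n hn hc h).1
  have h1 := Nat.totient_mul_prod_primeFactors n
  have h2 := Nat.prod_primeFactors_of_squarefree hsq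
  rw [h2] at h1
  have h3 : n.totient = ∏ p ∈ n.primeFactors, (p - 1) := by
    have : n.totient * n = (∏ p ∈ n.primeFactors, (p - 1)) * n := by rw [h1, mul_comm]
    exact Nat.eq_of_mul_eq_mul_right (by omega) this
  rw [h3] at hqd
  obtain ⟨p, hp, hqp⟩ := (Prime.dvd_finsetProd_iff hq.prime _).mp hqd
  exact ⟨p, q, Nat.prime_of_mem_primeFactors hp, Nat.dvd_of_mem_primeFactors hp, hq, hqp, h31⟩

end Pool.H688.Lehmer
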